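import Mathlib
import Pool.Agent.Lib.MP_153faa_pr.CS.Main

set_option autoImplicit false

open MeasureTheory Filter Topology Pool.Agent.Lib.MP_153faa_pr

namespace Pool.Agent.Results.MP_153faa_pr.CriticalProfile

/-- At the critical point the moment of order `1 + 2 / d` of the partition function grows like a
constant times `log n`, and the part of it carried by values above `n ^ x` decays like
`exp (- 4 x / d)`. -/
theorem result (d : ℕ) (hd : 3 ≤ d) (ν : Measure ℝ) [IsProbabilityMeasure ν]
    (hν : ∀ β : ℝ, Integrable (fun t => Real.exp (β * t)) ν)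
    (hne : ∃ β : ℝ, 0 ≤ β ∧ freeEnergy d ν β < 0) :
    ∃ c : ℝ, 0 < c ∧ ∀ x : ℝ, 0 ≤ x →
      Tendsto
        (fun n : ℕ => (∫ ω in {ω | (n : ℝ) ^ x < W ν (betaC d ν) n ω},
          W ν (betaC d ν) n ω ^ (1 + 2 / (d : ℝ)) ∂envLaw d ν) / Real.log n)
        atTop (𝓝 (c * Real.exp (-(4 * x / d)))) :=
  CS.profile hd ν hν hne

end Pool.Agent.Results.MP_153faa_pr.CriticalProfile
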