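import Mathlib
import Pool.Agent.Lib.MP_153faa_pr.GMain

set_option autoImplicit false

open MeasureTheory Filter Topology Pool.Agent.Lib.MP_153faa_pr

namespace Pool.Agent.Results.MP_153faa_pr.HalfExponent

theorem result (d : ℕ) (hd : 3 ≤ d) : ∃ γ : ℝ, 0 < γ ∧ γ = 1 / 2 ∧
    ∀ (ν : Measure ℝ) [IsProbabilityMeasure ν],
      (∀ β : ℝ, Integrable (fun t => Real.exp (β * t)) ν) →
      (∃ β : ℝ, 0 ≤ β ∧ freeEnergy d ν β < 0) →
      Tendsto
        (fun β => Real.log (-Real.log |freeEnergy d ν β|) / Real.log (1 / (β - betaC d ν)))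
        (𝓝[>] betaC d ν) (𝓝 γ) :=
  ⟨1 / 2, by norm_num, rfl, fun ν _ hν hne => main_half hd ν hν hne⟩

end Pool.Agent.Results.MP_153faa_pr.HalfExponent
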